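import Pool.Agent.H96.HK.Basic

/-!
# MP_e94f6f_an: concentration at the pole
-/

open MeasureTheory Set Filter Topology
open Pool.Agent.H96.HK

namespace Pool.Agent.H97.HK

theorem gauss_int (b c y1 y2 : ℝ) (hb : 0 < b) (hc : 0 < c) :
    Integrable (fun z : X => Real.exp (-b * (z.1 - y1) ^ 2) * Real.exp (-c * (z.2 - y2) ^ 2)) ∧
    ∫ z : X, Real.exp (-b * (z.1 - y1) ^ 2) * Real.exp (-c * (z.2 - y2) ^ 2) =
      √(Real.pi / b) * √(Real.pi / c) := by
  constructor
  · rw [Measure.volume_eq_prod]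
    exact Integrable.mul_prod ((integrable_exp_neg_mul_sq hb).comp_sub_right y1)
      ((integrable_exp_neg_mul_sq hc).comp_sub_right y2)
  · rw [Measure.volume_eq_prod, integral_prod_mul (fun x => Real.exp (-b * (x - y1) ^ 2))
      (fun x => Real.exp (-c * (x - y2) ^ 2)),
      integral_sub_right_eq_self (fun x => Real.exp (-b * x ^ 2)) y1,
      integral_sub_right_eq_self (fun x => Real.exp (-c * x ^ 2)) y2,
      integral_gaussian, integral_gaussian]

theorem E2_nn_int (F : ℝ → ℝ) (y : X) (hF : 0 < F y.1) (κ t : ℝ) (hκ : κ < 1) (ht : 0 < t) :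
    Integrable (fun z : X => E2 t ((1 - κ) * nn F y z ^ 2)) ∧
    ∫ z : X, E2 t ((1 - κ) * nn F y z ^ 2) = 1 / ((1 - κ) * F y.1) := by
  set b : ℝ := (1 - κ) / (4 * t) with hb
  have hb0 : 0 < b := div_pos (by linarith) (by linarith)
  have hc0 : 0 < b * F y.1 ^ 2 := by positivity
  have e : ∀ z : X, E2 t ((1 - κ) * nn F y z ^ 2) = (4 * Real.pi * t)⁻¹ *
      (Real.exp (-b * (z.1 - y.1) ^ 2) * Real.exp (-(b * F y.1 ^ 2) * (z.2 - y.2) ^ 2)) := by
    intro z
    rw [← Real.exp_add]
    unfold E2 nn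
    rw [Real.sq_sqrt (by positivity)]
    congr 2
    rw [hb]
    field_simp
    ring
  obtain ⟨h1, h2⟩ := gauss_int b (b * F y.1 ^ 2) y.1 y.2 hb0 hc0
  refine ⟨?_, ?_⟩
  · simp_rw [e]
    exact h1.const_mul _
  · simp_rw [e]
    rw [integral_const_mul, h2, ← Real.sqrt_mul (by positivity)]
    have h3 : Real.pi / b * (Real.pi / (b * F y.1 ^ 2)) = (Real.pi / (b * F y.1)) ^ 2 := by
      field_simp
    rw [h3, Real.sqrt_sq (by positivity), hb]
    have : (1 - κ) ≠ 0 := by linarith
    field_simp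

theorem conc : T_CONC := by
  intro F hP y Kc t1 ψ ht1 hKc hψc hψ0 hψs hψn hψf g hgc hg0 η hη
  have hF0 : 0 < F y.1 := hP.pos _
  have hgy := hg0 y
  set κ : ℝ := min (1 / 2) (F y.1 * η / 2 / (1 + F y.1 * (g y + η / 2))) with hκ
  have hκ0 : 0 < κ := by
    rw [hκ]
    have : 0 < 1 + F y.1 * (g y + η / 2) := by positivity
    positivity
  have hκ1 : κ ≤ 1 / 2 := min_le_left _ _
  have hκ2 : κ * (1 + F y.1 * (g y + η / 2)) ≤ F y.1 * η / 2 := by
    have h1 : κ ≤ F y.1 * η / 2 / (1 + F y.1 * (g y + η / 2)) := min_le_right _ _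
    have : 0 < 1 + F y.1 * (g y + η / 2) := by positivity
    rwa [le_div_iff₀ this] at h1
  obtain ⟨r1, hr1, hr1'⟩ := hψn κ hκ0 (by linarith)
  have hgFc : Continuous fun z : X => g z * F z.1 :=
    hgc.mul (hP.continuous.comp continuous_fst)
  obtain ⟨ρ, hρ, hρ'⟩ := Metric.continuousAt_iff.1 (hgFc.continuousAt (x := y)) κ hκ0
  set r : ℝ := min r1 (min (ρ / 2) (F y.1 * ρ / 2)) with hr
  have hr0 : 0 < r := by positivity
  have hnear : ∀ z : X, nn F y z ≤ r → g z * F z.1 ≤ g y * F y.1 + κ := by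
    intro z hz
    have h1 : |z.1 - y.1| ≤ nn F y z := by
      unfold nn
      rw [← Real.sqrt_sq_eq_abs]
      exact Real.sqrt_le_sqrt (by nlinarith [sq_nonneg (F y.1), sq_nonneg (F y.1 * (z.2 - y.2))])
    have h2 : F y.1 * |z.2 - y.2| ≤ nn F y z := by
      unfold nn
      rw [← abs_of_pos hF0, ← abs_mul, ← Real.sqrt_sq_eq_abs, abs_of_pos hF0]
      exact Real.sqrt_le_sqrt (by nlinarith [sq_nonneg (z.1 - y.1)])
    have h3 : r ≤ ρ / 2 := (min_le_right _ _).trans (min_le_left _ _)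
    have h4 : r ≤ F y.1 * ρ / 2 := (min_le_right _ _).trans (min_le_right _ _)
    have h5 : dist z y < ρ := by
      rw [Prod.dist_eq, max_lt_iff, Real.dist_eq, Real.dist_eq]
      refine ⟨by linarith, ?_⟩
      have : F y.1 * |z.2 - y.2| < F y.1 * ρ := by nlinarith
      exact lt_of_mul_lt_mul_left this hF0.le
    have h6 := hρ' h5
    rw [Real.dist_eq] at h6
    linarith [(abs_lt.1 h6).2]
  obtain ⟨M, hM⟩ := hKc.bddAbove_image hgFc.continuousOn
  have hM' : ∀ z ∈ Kc, g z * F z.1 ≤ max M 0 := fun z hz =>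
    (hM (mem_image_of_mem _ hz)).trans (le_max_left _ _)
  have hM0 : 0 ≤ max M 0 := le_max_right _ _
  set V : ℝ := (volume : Measure X).real Kc with hV
  have hV0 : 0 ≤ V := measureReal_nonneg
  have hη' : 0 < η / 2 / (1 + max M 0 * V) := by positivity
  filter_upwards [hψf r hr0 _ hη', Ioc_mem_nhdsGT ht1] with δ hδ hδ1
  have hδ0 : 0 < δ := hδ1.1
  obtain ⟨hI1, hI2⟩ := E2_nn_int F y hF0 κ δ (by linarith) hδ0
  have hI3 : Integrable (fun z : X => (g y * F y.1 + κ) * E2 δ ((1 - κ) * nn F y z ^ 2) +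
      Kc.indicator (fun _ => η / 2 / (1 + max M 0 * V) * max M 0) z) := by
    refine (hI1.const_mul _).add ?_
    refine (integrable_indicator_iff hKc.measurableSet).2 ?_
    exact integrableOn_const hKc.measure_lt_top.ne
  have hle : ∫ z : X, ψ δ z * g z * F z.1 ≤
      ∫ z : X, ((g y * F y.1 + κ) * E2 δ ((1 - κ) * nn F y z ^ 2) +
        Kc.indicator (fun _ => η / 2 / (1 + max M 0 * V) * max M 0) z) := by
    refine integral_mono_of_nonneg ?_ hI3 ?_
    · refine Eventually.of_forall fun z => ?_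
      have h1 := hψ0 δ hδ1 z
      have h2 := hg0 z
      have h3 := (hP.pos z.1).le
      exact mul_nonneg (mul_nonneg h1 h2) h3
    · refine Eventually.of_forall fun z => ?_
      simp only
      have h1 := hψ0 δ hδ1 z
      have hgF : 0 ≤ g z * F z.1 := mul_nonneg (hg0 z) (hP.pos z.1).le
      have hE : 0 < E2 δ ((1 - κ) * nn F y z ^ 2) := E2_pos' hδ0 _
      have hi : 0 ≤ Kc.indicator (fun _ => η / 2 / (1 + max M 0 * V) * max M 0) z :=
        indicator_nonneg (fun _ _ => by positivity) z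
      have hG0 : 0 ≤ g y * F y.1 + κ := by positivity
      by_cases hz : nn F y z ≤ r
      · have h2 := hr1' δ hδ1 z (hz.trans (min_le_left _ _))
        have h3 := hnear z hz
        calc ψ δ z * g z * F z.1 = ψ δ z * (g z * F z.1) := by ring
          _ ≤ E2 δ ((1 - κ) * nn F y z ^ 2) * (g y * F y.1 + κ) := by gcongr
          _ ≤ _ := by linarith
      · by_cases hzK : z ∈ Kc
        · have h2 := hδ z hzK (not_le.1 hz).le
          have h3 := hM' z hzK
          rw [indicator_of_mem hzK]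
          calc ψ δ z * g z * F z.1 = ψ δ z * (g z * F z.1) := by ring
            _ ≤ (η / 2 / (1 + max M 0 * V)) * max M 0 := by gcongr
            _ ≤ _ := by
              have : 0 ≤ (g y * F y.1 + κ) * E2 δ ((1 - κ) * nn F y z ^ 2) := by positivity
              linarith
        · rw [hψs δ hδ1 z hzK]
          have : 0 ≤ (g y * F y.1 + κ) * E2 δ ((1 - κ) * nn F y z ^ 2) := by positivity
          linarith
  refine hle.trans ?_
  rw [integral_add (hI1.const_mul _) ((integrable_indicator_iff hKc.measurableSet).2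
    (integrableOn_const hKc.measure_lt_top.ne)), integral_const_mul, hI2,
    integral_indicator hKc.measurableSet, setIntegral_const, smul_eq_mul, ← hV]
  have h1 : (g y * F y.1 + κ) * (1 / ((1 - κ) * F y.1)) ≤ g y + η / 2 := by
    have h2 : 0 < (1 - κ) * F y.1 := mul_pos (by linarith) hF0
    rw [mul_one_div, div_le_iff₀ h2]
    nlinarith
  have h2 : V * (η / 2 / (1 + max M 0 * V) * max M 0) ≤ η / 2 := by
    have h3 : 0 < 1 + max M 0 * V := by positivity
    have e : V * (η / 2 / (1 + max M 0 * V) * max M 0) =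
        (η / 2) * (max M 0 * V / (1 + max M 0 * V)) := by field_simp
    rw [e]
    have h4 : max M 0 * V / (1 + max M 0 * V) ≤ 1 := by
      rw [div_le_one h3]; linarith
    nlinarith
  linarith

end Pool.Agent.H97.HK
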