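import Pool.Agent.H96.HK.Basic
import Pool.Agent.H82.Adapted.OdeLocal

/-!
# MP_e94f6f_an: global C1 flow of a bounded Lipschitz C1 vector field
-/

set_option linter.unusedSectionVars false

open MeasureTheory Set Filter Topology
open scoped NNReal
open Pool.Agent.H96.HK
open Pool.Agent.H82.Adapted

namespace Pool.Agent.H97.HK

section Glob

variable {E : Type*} [NormedAddCommGroup E] [NormedSpace ℝ E] [FiniteDimensional ℝ E]

/-- `C¹` dependence on the initial condition for short positive times. -/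
theorem local_flow {g : E → E} (hg : ContDiff ℝ 1 g) {K : ℝ≥0} (hK : LipschitzWith K g)
    {α : E → ℝ → E} (hα0 : ∀ x, α x 0 = x)
    (hα : ∀ x, ∀ t ∈ Ioo (-1 : ℝ) 1, HasDerivAt (α x) (g (α x t)) t) :
    ∃ (T : ℝ) (D : E → ℝ → E →L[ℝ] E), 0 < T ∧ T < 1 ∧
      (∀ x, ∀ t ∈ Icc 0 T, HasFDerivAt (fun y => α y t) (D x t) x) ∧
      ContinuousOn (fun p : E × ℝ => α p.1 p.2) (univ ×ˢ Icc 0 T) ∧
      ContinuousOn (fun p : E × ℝ => D p.1 p.2) (univ ×ˢ Icc 0 T) := by
  set T : ℝ := 1 / (2 * (K + 1)) with hT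
  have hK0 : (0 : ℝ) ≤ K := K.2
  have hT0 : 0 < T := by positivity
  have hT1 : T < 1 := by
    rw [hT, div_lt_one (by positivity)]; linarith
  have hTK : 2 * (K : ℝ) * T ≤ 1 := by
    rw [hT, mul_one_div, div_le_one (by positivity)]; linarith
  have hBc := continuous_jac hK hα0 hα hg hT0 hT1
  choose Z hZ0 hZc hZ using fun p : E × E => exists_lin (K := K) (T := T)
    (B := jac g α T p) (hBc.comp (Continuous.prodMk_right p)) (norm_jac_le hK p) hTK hT0
  -- Lipschitz property of the linear equation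
  have hlin : ∀ (p : E × E) (t : ℝ), LipschitzWith K fun Y : E →L[ℝ] E => (jac g α T p t).comp Y := by
    intro p t
    refine LipschitzWith.of_dist_le_mul fun Y Y' => ?_
    rw [dist_eq_norm, dist_eq_norm, ← ContinuousLinearMap.comp_sub]
    refine (ContinuousLinearMap.opNorm_comp_le _ _).trans ?_
    exact mul_le_mul_of_nonneg_right (norm_jac_le hK p t) (norm_nonneg _)
  -- bound on `Z`
  have hZb : ∀ p, ∀ t ∈ Icc 0 T, ‖Z p t‖ ≤ Real.exp (K * T) := by
    intro p t ht
    have h := dist_le_of_trajectories_ODE (v := fun t Y => (jac g α T p t).comp Y) (K := K)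
      (a := 0) (b := T) (f := Z p) (g := fun _ => 0) (δ := 1) (hlin p) (hZc p) (hZ p)
      continuousOn_const (fun t _ => by simpa using hasDerivWithinAt_const t (Ici t) (0 : E →L[ℝ] E))
      (by rw [hZ0, dist_zero_right]; exact ContinuousLinearMap.norm_id_le) t ht
    rw [dist_zero_right] at h
    refine h.trans ?_
    rw [one_mul, sub_zero]
    exact Real.exp_le_exp.mpr (mul_le_mul_of_nonneg_left ht.2 hK0)
  -- the difference formula
  have hdiff : ∀ x y, ∀ t ∈ Icc 0 T, α y t - α x t = Z (x, y) t (y - x) := by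
    intro x y
    have h := ODE_solution_unique_of_mem_Icc_right (v := fun t z => jac g α T (x, y) t z)
      (s := fun _ => univ) (K := K) (a := 0) (b := T) (f := fun t => α y t - α x t)
      (g := fun t => Z (x, y) t (y - x)) (fun t _ => ?_) ?_ (fun t ht => ?_) (fun _ _ => trivial)
      ?_ (fun t ht => ?_) (fun _ _ => trivial) ?_
    · exact h
    · refine (LipschitzWith.of_dist_le_mul fun z z' => ?_).lipschitzOnWith
      rw [dist_eq_norm, dist_eq_norm, ← map_sub]
      refine (ContinuousLinearMap.le_opNorm _ _).trans ?_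
      exact mul_le_mul_of_nonneg_right (norm_jac_le hK (x, y) t) (norm_nonneg _)
    · exact (sol_continuousOn hα hT1 y).sub (sol_continuousOn hα hT1 x)
    · have h1 := (hα y t ⟨by linarith [ht.1], by linarith [ht.2]⟩).sub
        (hα x t ⟨by linarith [ht.1], by linarith [ht.2]⟩)
      have h2 := jac_apply (T := T) hg (α := α) (x, y) (t := t) ⟨ht.1, ht.2.le⟩
      simp only at h2
      rw [h2]
      exact h1.hasDerivWithinAt
    · exact (hZc (x, y)).clm_apply continuousOn_const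
    · have h1 := (hZ (x, y) t ht).clm_apply (hasDerivWithinAt_const t (Ici t) (y - x))
      simpa using h1
    · simp [hα0, hZ0]
  -- joint continuity of `Z`
  have hZjoint : Continuous fun q : (E × E) × ℝ => Z q.1 (clamp T q.2) := by
    rw [continuous_iff_continuousAt]
    rintro ⟨p₀, t₀⟩
    rw [Metric.continuousAt_iff']
    intro ε hε
    obtain ⟨η, hη0, hη⟩ : ∃ η > 0, gronwallBound 0 K (0 + η * Real.exp (K * T)) T < ε / 2 := by
      have h1 : Tendsto (fun η => gronwallBound 0 K (0 + η * Real.exp (K * T)) T) (𝓝[>] 0)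
          (𝓝 (gronwallBound 0 K (0 + 0 * Real.exp (K * T)) T)) := by
        have := (gronwallBound_continuous_ε 0 K T).comp
          (f := fun η : ℝ => 0 + η * Real.exp (K * T)) (by fun_prop)
        exact (this.tendsto 0).mono_left nhdsWithin_le_nhds
      have h2 : gronwallBound 0 K (0 + 0 * Real.exp (K * T)) T = 0 := by
        rw [zero_mul, add_zero, gronwallBound_ε0, zero_mul]
      rw [h2] at h1
      have h3 := (h1.eventually_lt_const (half_pos hε)).and self_mem_nhdsWithin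
      obtain ⟨η, h4, h5⟩ := h3.exists
      exact ⟨η, h5, h4⟩
    have h1 : ∀ᶠ p in 𝓝 p₀, ∀ t ∈ Icc 0 T, ‖jac g α T p t - jac g α T p₀ t‖ < η := by
      refine isCompact_Icc.eventually_forall_of_forall_eventually fun t _ => ?_
      have h2 : Continuous fun q : (E × E) × ℝ => ‖jac g α T q.1 q.2 - jac g α T p₀ q.2‖ :=
        (hBc.sub (hBc.comp (continuous_const.prodMk continuous_snd))).norm
      have h3 := h2.tendsto (p₀, t)
      simp only [sub_self, norm_zero] at h3
      exact h3.eventually_lt_const hη0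
    have h2 : ∀ᶠ p in 𝓝 p₀, ∀ t ∈ Icc 0 T, dist (Z p t) (Z p₀ t) < ε / 2 := by
      filter_upwards [h1] with p hp t ht
      have h3 := dist_le_of_approx_trajectories_ODE (v := fun t Y => (jac g α T p₀ t).comp Y)
        (K := K) (a := 0) (b := T) (f := Z p₀) (g := Z p) (δ := 0) (εf := 0)
        (εg := η * Real.exp (K * T)) (f' := fun t => (jac g α T p₀ t).comp (Z p₀ t))
        (g' := fun t => (jac g α T p t).comp (Z p t)) (hlin p₀) (hZc p₀) (hZ p₀)
        (fun t _ => by simp) (hZc p) (hZ p) (fun t ht => ?_) (by rw [hZ0, hZ0, dist_self]) t ht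
      · rw [dist_comm]
        refine lt_of_le_of_lt (h3.trans ?_) hη
        refine gronwallBound_mono le_rfl (by positivity) hK0 ?_
        linarith [ht.2]
      · rw [dist_eq_norm, ← ContinuousLinearMap.sub_comp]
        refine (ContinuousLinearMap.opNorm_comp_le _ _).trans ?_
        exact mul_le_mul (hp t ⟨ht.1, ht.2.le⟩).le (hZb p t ⟨ht.1, ht.2.le⟩) (norm_nonneg _)
          hη0.le
    have h3 : ∀ᶠ q : (E × E) × ℝ in 𝓝 (p₀, t₀), dist (Z p₀ (clamp T q.2)) (Z p₀ (clamp T t₀)) <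
        ε / 2 := by
      have h4 : Continuous fun t => Z p₀ (clamp T t) :=
        (hZc p₀).comp_continuous (continuous_clamp T) fun t => clamp_mem hT0.le t
      have h5 := (h4.comp continuous_snd (X := (E × E) × ℝ)).tendsto (p₀, t₀)
      exact Metric.tendsto_nhds.mp h5 _ (half_pos hε)
    filter_upwards [(continuous_fst.tendsto (p₀, t₀)).eventually h2, h3] with q hq1 hq2
    calc dist (Z q.1 (clamp T q.2)) (Z p₀ (clamp T t₀))
        ≤ dist (Z q.1 (clamp T q.2)) (Z p₀ (clamp T q.2)) +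
          dist (Z p₀ (clamp T q.2)) (Z p₀ (clamp T t₀)) := dist_triangle _ _ _
      _ < ε := by
          have := hq1 (clamp T q.2) (clamp_mem hT0.le _)
          linarith
  refine ⟨T, fun x t => Z (x, x) t, hT0, hT1, ?_, ?_, ?_⟩
  · intro x t ht
    rw [hasFDerivAt_iff_isLittleO]
    rw [Asymptotics.isLittleO_iff]
    intro c hc
    have h1 : ContinuousAt (fun y => Z (x, y) t) x := by
      have h2 : Continuous fun y : E => Z (x, y) (clamp T t) :=
        hZjoint.comp (f := fun y : E => ((x, y), t)) (by fun_prop)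
      rw [clamp_of_mem ht] at h2
      exact h2.continuousAt
    have h3 := Metric.tendsto_nhds.mp h1.tendsto c hc
    filter_upwards [h3] with y hy
    rw [hdiff x y t ht, ← sub_apply]
    refine (ContinuousLinearMap.le_opNorm _ _).trans ?_
    refine mul_le_mul_of_nonneg_right ?_ (norm_nonneg _)
    rw [dist_eq_norm] at hy
    exact hy.le
  · refine (continuous_clamped hK hα0 hα hT0 hT1).continuousOn.congr ?_
    rintro ⟨x, t⟩ ⟨_, ht⟩
    simp only [clamp_of_mem ht]
  · have h1 : Continuous fun p : E × ℝ => Z (p.1, p.1) (clamp T p.2) :=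
      hZjoint.comp (f := fun p : E × ℝ => ((p.1, p.1), p.2)) (by fun_prop)
    refine h1.continuousOn.congr ?_
    rintro ⟨x, t⟩ ⟨_, ht⟩
    simp only [clamp_of_mem ht]

/-- Global solutions on `(-R, R)` of a bounded Lipschitz vector field. -/
lemma exists_sol_R {g : E → E} {K : ℝ≥0} (hK : LipschitzWith K g) {C : ℝ} (hC : ∀ x, ‖g x‖ ≤ C)
    {R : ℝ} (hR : 0 < R) (x : E) :
    ∃ α : ℝ → E, α 0 = x ∧ ∀ t ∈ Ioo (-R) R, HasDerivAt α (g (α t)) t := by
  have hC0 : 0 ≤ C := (norm_nonneg _).trans (hC 0)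
  have hpl : IsPicardLindelof (fun _ => g) (tmin := -R) (tmax := R)
      ⟨0, by constructor <;> linarith⟩ x ⟨C * R, by positivity⟩ 0 ⟨C, hC0⟩ K := by
    refine ⟨fun t _ => hK.lipschitzOnWith, fun x _ => continuousOn_const, fun t _ x _ => hC x, ?_⟩
    simp only [sub_zero, zero_sub, neg_neg, max_self, NNReal.coe_zero]
    exact le_refl (C * R)
  obtain ⟨α, h0, h1⟩ := hpl.exists_eq_forall_mem_Icc_hasDerivWithinAt₀
  exact ⟨α, h0, fun t ht => (h1 t (Ioo_subset_Icc_self ht)).hasDerivAt (Icc_mem_nhds ht.1 ht.2)⟩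

/-- Global solutions. -/
lemma exists_glob {g : E → E} {K : ℝ≥0} (hK : LipschitzWith K g) {C : ℝ} (hC : ∀ x, ‖g x‖ ≤ C)
    (x : E) : ∃ α : ℝ → E, α 0 = x ∧ ∀ t, HasDerivAt α (g (α t)) t := by
  choose β hβ0 hβ using fun n : ℕ => exists_sol_R hK hC (R := n + 1) (by positivity) x
  have key : ∀ m n : ℕ, m ≤ n → ∀ t ∈ Ioo (-((m : ℝ) + 1)) (m + 1), β m t = β n t := by
    intro m n hmn
    have hmn' : (m : ℝ) ≤ n := by exact_mod_cast hmn
    have h := ODE_solution_unique_of_mem_Ioo (v := fun _ z => g z) (s := fun _ => univ) (K := K)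
      (a := -((m : ℝ) + 1)) (b := m + 1) (t₀ := 0) (f := β m) (g := β n)
      (fun t _ => hK.lipschitzOnWith) ⟨by linarith [Nat.cast_nonneg (α := ℝ) m], by positivity⟩
      (fun t ht => ⟨hβ m t ht, trivial⟩)
      (fun t ht => ⟨hβ n t ⟨by linarith [ht.1], by linarith [ht.2]⟩, trivial⟩)
      (by rw [hβ0, hβ0])
    exact h
  refine ⟨fun t => β ⌈|t|⌉₊ t, by simp [hβ0], fun t => ?_⟩
  have hloc : ∀ s ∈ Ioo (-((⌈|t|⌉₊ : ℝ) + 1)) (⌈|t|⌉₊ + 1), β ⌈|s|⌉₊ s = β ⌈|t|⌉₊ s := by
    intro s hs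
    rcases le_total ⌈|s|⌉₊ ⌈|t|⌉₊ with h | h
    · refine key _ _ h s ?_
      have h1 := Nat.le_ceil |s|
      rw [mem_Ioo, ← abs_lt]
      linarith
    · exact (key _ _ h s hs).symm
  have ht : t ∈ Ioo (-((⌈|t|⌉₊ : ℝ) + 1)) (⌈|t|⌉₊ + 1) := by
    rw [mem_Ioo, ← abs_lt]
    linarith [Nat.le_ceil |t|]
  refine (hβ ⌈|t|⌉₊ t ht).congr_of_eventuallyEq ?_
  filter_upwards [Ioo_mem_nhds ht.1 ht.2] with s hs
  exact hloc s hs

/-- The flow property. -/
lemma flow_add {g : E → E} {K : ℝ≥0} (hK : LipschitzWith K g) {α : ℝ → E → E}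
    (hα0 : ∀ x, α 0 x = x) (hα : ∀ x t, HasDerivAt (fun t => α t x) (g (α t x)) t)
    (s t : ℝ) (x : E) : α (s + t) x = α s (α t x) := by
  have h := ODE_solution_unique_univ (v := fun _ z => g z) (s := fun _ => univ) (K := K)
    (t₀ := 0) (f := fun s => α (s + t) x) (g := fun s => α s (α t x))
    (fun t => hK.lipschitzOnWith)
    (fun s => ⟨(hα x (s + t)).comp_add_const s t, trivial⟩)
    (fun s => ⟨hα (α t x) s, trivial⟩) (by simp only [zero_add, hα0])
  exact congrFun h s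

/-- The flow is `C¹` in a strip. -/
lemma strip {g : E → E} (hg : ContDiff ℝ 1 g) {K : ℝ≥0} (hK : LipschitzWith K g) {α : ℝ → E → E}
    (hα0 : ∀ x, α 0 x = x) (hα : ∀ x t, HasDerivAt (fun t => α t x) (g (α t x)) t) :
    ∃ T > 0, ∀ t ∈ Ioo 0 T, ∀ x, ContDiffAt ℝ 1 (fun z : ℝ × E => α z.1 z.2) (t, x) := by
  obtain ⟨T, D, hT0, hT1, hD, hαc, hDc⟩ := local_flow hg hK (α := fun x t => α t x) hα0
    (fun x t _ => hα x t)
  refine ⟨T, hT0, fun t ht x => ?_⟩
  have hopen : IsOpen (Ioo 0 T ×ˢ (univ : Set E)) := isOpen_Ioo.prod isOpen_univ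
  have hsw : MapsTo (fun z : ℝ × E => (z.2, z.1)) (Ioo 0 T ×ˢ univ) (univ ×ˢ Icc 0 T) :=
    fun z hz => ⟨trivial, Ioo_subset_Icc_self hz.1⟩
  have hαc' : ContinuousOn (fun z : ℝ × E => α z.1 z.2) (Ioo 0 T ×ˢ univ) :=
    hαc.comp (f := fun z : ℝ × E => (z.2, z.1)) (by fun_prop) hsw
  have hDc' : ContinuousOn (fun z : ℝ × E => D z.2 z.1) (Ioo 0 T ×ˢ univ) :=
    hDc.comp (f := fun z : ℝ × E => (z.2, z.1)) (by fun_prop) hsw
  have h1c : ContinuousOn (fun z : ℝ × E =>
      (ContinuousLinearMap.toSpanSingleton ℝ (g (α z.1 z.2)) : ℝ →L[ℝ] E))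
      (Ioo 0 T ×ˢ univ) := by
    have h2 : Continuous fun v : E => (ContinuousLinearMap.toSpanSingleton ℝ v : ℝ →L[ℝ] E) :=
      (ContinuousLinearMap.toSpanSingletonCLE (𝕜 := ℝ) (E := E)).continuous
    exact h2.comp_continuousOn (hg.continuous.comp_continuousOn hαc')
  rw [contDiffAt_one_iff]
  refine ⟨fun z => (ContinuousLinearMap.toSpanSingleton ℝ (g (α z.1 z.2)) : ℝ →L[ℝ] E).coprod
    (D z.2 z.1), Ioo 0 T ×ˢ univ, hopen.mem_nhds ⟨ht, trivial⟩, ?_, ?_⟩
  · have h3 := (h1c.clm_comp (continuousOn_const (c := ContinuousLinearMap.fst ℝ ℝ E))).add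
      (hDc'.clm_comp (continuousOn_const (c := ContinuousLinearMap.snd ℝ ℝ E)))
    refine h3.congr fun z _ => ?_
    exact (ContinuousLinearMap.comp_fst_add_comp_snd _ _).symm
  · intro z hz
    have h := hasStrictFDerivAt_uncurry_coprod (𝕜 := ℝ) (u := z) (f := α)
      (f₁ := fun t x => (ContinuousLinearMap.toSpanSingleton ℝ (g (α t x)) : ℝ →L[ℝ] E))
      (f₂ := fun t x => D x t) ?_ ?_ (h1c.continuousAt (hopen.mem_nhds hz))
      (hDc'.continuousAt (hopen.mem_nhds hz))
    · exact h.hasFDerivAt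
    · exact Eventually.of_forall fun v => (hα v.2 v.1).hasFDerivAt
    · filter_upwards [hopen.mem_nhds hz] with v hv
      exact hD v.2 v.1 (Ioo_subset_Icc_self hv.1)

lemma slice_pos {g : E → E} (hg : ContDiff ℝ 1 g) {K : ℝ≥0} (hK : LipschitzWith K g)
    {α : ℝ → E → E} (hα0 : ∀ x, α 0 x = x)
    (hα : ∀ x t, HasDerivAt (fun t => α t x) (g (α t x)) t) (s : ℝ) (hs : 0 ≤ s) :
    ContDiff ℝ 1 (α s) := by
  obtain ⟨T, hT0, hT⟩ := strip hg hK hα0 hα
  rcases hs.eq_or_lt with rfl | hs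
  · have : α 0 = id := funext hα0
    rw [this]
    exact contDiff_id
  obtain ⟨n, hn⟩ := exists_nat_gt (s / T)
  have hn0 : (0 : ℝ) < n := lt_trans (by positivity) hn
  have hh : s / n ∈ Ioo 0 T := by
    refine ⟨by positivity, ?_⟩
    rw [div_lt_iff₀ hT0] at hn
    rw [div_lt_iff₀ hn0]
    linarith
  have h1 : ContDiff ℝ 1 (α (s / n)) := by
    rw [contDiff_iff_contDiffAt]
    intro x
    exact (hT _ hh x).comp (f := fun y : E => (s / n, y)) x (by fun_prop)
  have h2 : ∀ k : ℕ, ContDiff ℝ 1 (α (k * (s / n))) := by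
    intro k
    induction k with
    | zero =>
      have : α ((0 : ℕ) * (s / n)) = id := by
        funext x
        simp [hα0]
      rw [this]
      exact contDiff_id
    | succ k ih =>
      have : α ((k + 1 : ℕ) * (s / n)) = α (s / n) ∘ α (k * (s / n)) := by
        funext x
        rw [Function.comp_apply, ← flow_add hK hα0 hα]
        congr 1
        push_cast
        ring
      rw [this]
      exact h1.comp ih
  have h3 := h2 n
  rwa [mul_div_cancel₀ _ hn0.ne'] at h3

lemma slice {g : E → E} (hg : ContDiff ℝ 1 g) {K : ℝ≥0} (hK : LipschitzWith K g)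
    {α : ℝ → E → E} (hα0 : ∀ x, α 0 x = x)
    (hα : ∀ x t, HasDerivAt (fun t => α t x) (g (α t x)) t) (s : ℝ) :
    ContDiff ℝ 1 (α s) := by
  rcases le_total 0 s with hs | hs
  · exact slice_pos hg hK hα0 hα s hs
  · have hK' : LipschitzWith K (fun x => -g x) := by
      refine LipschitzWith.of_dist_le_mul fun x y => ?_
      rw [dist_neg_neg]
      exact hK.dist_le_mul x y
    have h := slice_pos (g := fun x => -g x) hg.neg hK' (α := fun t x => α (-t) x)
      (fun x => by simp [hα0]) (fun x t => ?_) (-s) (by linarith)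
    · simpa using h
    · have h1 := (hα x (-t)).scomp t (hasDerivAt_neg t)
      simpa [Function.comp_def] using h1

theorem glob {g : E → E} (hg : ContDiff ℝ 1 g) {K : ℝ≥0} (hK : LipschitzWith K g) {C : ℝ}
    (hC : ∀ x, ‖g x‖ ≤ C) : ∃ α : ℝ → E → E, (∀ x, α 0 x = x) ∧
      (∀ x t, HasDerivAt (fun t => α t x) (g (α t x)) t) ∧
      ContDiff ℝ 1 (fun z : ℝ × E => α z.1 z.2) := by
  choose β hβ0 hβ using fun x : E => exists_glob hK hC x
  have hα0 : ∀ x, (fun t x => β x t) 0 x = x := hβ0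
  have hα : ∀ x t, HasDerivAt (fun t => (fun t x => β x t) t x) (g ((fun t x => β x t) t x)) t := hβ
  generalize (fun (t : ℝ) (x : E) => β x t) = α at hα0 hα
  refine ⟨α, hα0, hα, ?_⟩
  obtain ⟨T, hT0, hT⟩ := strip hg hK hα0 hα
  rw [contDiff_iff_contDiffAt]
  rintro ⟨t₀, x₀⟩
  have e : (fun z : ℝ × E => α z.1 z.2) =
      (fun z : ℝ × E => α z.1 z.2) ∘ (fun z : ℝ × E => (z.1 - t₀ + T / 2, α (t₀ - T / 2) z.2)) := by
    funext z
    simp only [Function.comp_apply]
    rw [← flow_add hK hα0 hα]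
    congr 1
    ring
  rw [e]
  refine ContDiffAt.comp (t₀, x₀) ?_ ?_
  · simp only [sub_self, zero_add]
    exact hT (T / 2) ⟨by linarith, by linarith⟩ _
  · refine ContDiffAt.prodMk ?_ ?_
    · fun_prop
    · exact ((slice hg hK hα0 hα (t₀ - T / 2)).comp contDiff_snd).contDiffAt

end Glob

theorem gfl : T_GFL := by
  intro g K C hg hK hC
  exact glob hg hK hC

end Pool.Agent.H97.HK
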