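import Pool.Agent.H96.HK.Basic

/-!
# MP_e94f6f_an: all geodesics are minimal
-/

open MeasureTheory Set Filter Topology
open scoped ContDiff
open Pool.Agent.H96.HK

namespace Pool.Agent.H97.HK

/-- First and last passage times. -/
theorem passage {φ : ℝ → ℝ} (hφ : Continuous φ) {A B : ℝ} (hAB : A < B) (h0 : φ 0 = A)
    (h1 : φ 1 = B) : ∃ ta tb, 0 ≤ ta ∧ ta ≤ tb ∧ tb ≤ 1 ∧ φ ta = A ∧ φ tb = B ∧
      ∀ t ∈ Icc ta tb, φ t ∈ Icc A B := by
  have hc1 : IsCompact (Icc (0 : ℝ) 1 ∩ {t | B ≤ φ t}) :=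
    isCompact_Icc.inter_right (isClosed_le continuous_const hφ)
  obtain ⟨tb, ⟨htb, htb1⟩, htb2⟩ := hc1.exists_isLeast ⟨1, ⟨by norm_num, le_rfl⟩, h1.ge⟩
  have hBe : φ tb = B := by
    have := intermediate_value_Icc htb.1 hφ.continuousOn
    obtain ⟨t, ht, ht'⟩ := this ⟨by rw [h0]; exact hAB.le, htb1⟩
    have h2 := htb2 (show t ∈ Icc (0 : ℝ) 1 ∩ {t | B ≤ φ t} from
      ⟨⟨ht.1, ht.2.trans htb.2⟩, ht'.ge⟩)
    rw [← le_antisymm h2 ht.2] at ht'
    exact ht'
  have hc2 : IsCompact (Icc (0 : ℝ) tb ∩ {t | φ t ≤ A}) :=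
    isCompact_Icc.inter_right (isClosed_le hφ continuous_const)
  obtain ⟨ta, ⟨hta, hta1⟩, hta2⟩ := hc2.exists_isGreatest ⟨0, ⟨le_rfl, htb.1⟩, h0.le⟩
  have hAe : φ ta = A := by
    have := intermediate_value_Icc hta.2 hφ.continuousOn
    obtain ⟨t, ht, ht'⟩ := this ⟨hta1, by rw [hBe]; exact hAB.le⟩
    have h2 := hta2 (show t ∈ Icc (0 : ℝ) tb ∩ {t | φ t ≤ A} from
      ⟨⟨hta.1.trans ht.1, ht.2⟩, ht'.le⟩)
    rw [le_antisymm h2 ht.1] at ht'
    exact ht'
  refine ⟨ta, tb, hta.1, hta.2, htb.2, hAe, hBe, fun t ht => ⟨?_, ?_⟩⟩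
  · by_contra hlt
    have h2 := hta2 (show t ∈ Icc (0 : ℝ) tb ∩ {t | φ t ≤ A} from
      ⟨⟨hta.1.trans ht.1, ht.2⟩, (not_le.1 hlt).le⟩)
    rw [← le_antisymm h2 ht.1] at hAe
    exact hlt hAe.ge
  · by_contra hlt
    have h2 := htb2 (show t ∈ Icc (0 : ℝ) 1 ∩ {t | B ≤ φ t} from
      ⟨⟨hta.1.trans ht.1, ht.2.trans htb.2⟩, (not_le.1 hlt).le⟩)
    rw [le_antisymm h2 ht.2] at hBe
    exact hlt hBe.le

/-- A global `C¹` inverse of an increasing function on an interval. -/
theorem inverse {P b : ℝ → ℝ} (hP : ∀ r, HasDerivAt P (b r) r) (hb : Continuous b)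
    (hb0 : ∀ r, 0 < b r) {r1 r2 : ℝ} (h12 : r1 ≤ r2) :
    ∃ Q : ℝ → ℝ, (∀ r ∈ Icc r1 r2, Q (P r) = r) ∧
      ∀ y ∈ Icc (P r1) (P r2), Q y ∈ Icc r1 r2 ∧ HasDerivAt Q (b (Q y))⁻¹ y := by
  set β : ℝ → ℝ := fun ρ => b (max r1 (min ρ r2)) with hβ
  have hβc : Continuous β := hb.comp (by fun_prop)
  obtain ⟨x0, hx0, hx0'⟩ := (isCompact_Icc (a := r1) (b := r2)).exists_isMinOn
    ⟨r1, le_rfl, h12⟩ hb.continuousOn
  have hm : ∀ ρ, b x0 ≤ β ρ := fun ρ =>
    hx0' (show max r1 (min ρ r2) ∈ Icc r1 r2 from ⟨le_max_left _ _, max_le h12 (min_le_right _ _)⟩)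
  set Pt : ℝ → ℝ := fun r => P r1 + ∫ ρ in r1..r, β ρ with hPt
  have hPtd : ∀ r, HasDerivAt Pt (β r) r := fun r =>
    (hβc.integral_hasStrictDerivAt r1 r).hasDerivAt.const_add _
  have hPe : ∀ r ∈ Icc r1 r2, Pt r = P r := by
    intro r hr
    have h1 : ∫ ρ in r1..r, β ρ = ∫ ρ in r1..r, b ρ := by
      refine intervalIntegral.integral_congr fun ρ hρ => ?_
      rw [uIcc_of_le hr.1] at hρ
      simp only [hβ]
      rw [min_eq_left (hρ.2.trans hr.2), max_eq_right hρ.1]
    have h2 : ∫ ρ in r1..r, b ρ = P r - P r1 :=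
      intervalIntegral.integral_eq_sub_of_hasDerivAt (fun x _ => hP x) (hb.intervalIntegrable _ _)
    simp only [hPt]
    rw [h1, h2]
    ring
  have hmono : StrictMono Pt := strictMono_of_deriv_pos fun x => by
    rw [(hPtd x).deriv]; exact hb0 _
  have hlin : Monotone fun r => Pt r - b x0 * r := by
    have hd : ∀ r, HasDerivAt (fun r => Pt r - b x0 * r) (β r - b x0) r := by
      intro r
      have := (hPtd r).sub ((hasDerivAt_id r).const_mul (b x0))
      exact this.congr_deriv (by rw [mul_one])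
    refine monotone_of_deriv_nonneg (fun r => (hd r).differentiableAt) fun r => ?_
    rw [(hd r).deriv]
    linarith [hm r]
  have hsurj : Function.Surjective Pt := by
    have hPc : Continuous Pt := continuous_iff_continuousAt.2 fun r => (hPtd r).continuousAt
    refine hPc.surjective ?_ ?_
    · refine tendsto_atTop_mono' _ (f₁ := fun r => Pt 0 - b x0 * 0 + b x0 * r) ?_ ?_
      · filter_upwards [eventually_ge_atTop 0] with r hr
        have := hlin hr
        simp only at this
        linarith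
      · exact tendsto_atTop_add_const_left _ _ (tendsto_id.const_mul_atTop (hb0 x0))
    · refine tendsto_atBot_mono' _ (f₂ := Pt) (f₁ := fun r => Pt 0 - b x0 * 0 + b x0 * r) ?_ ?_
      · filter_upwards [eventually_le_atBot 0] with r hr
        have := hlin hr
        simp only at this
        linarith
      · exact tendsto_atBot_add_const_left _ _ (tendsto_id.const_mul_atBot (hb0 x0))
  let e := hmono.orderIsoOfSurjective Pt hsurj
  have he : ∀ r, e r = Pt r := fun r => rfl
  refine ⟨e.symm, fun r hr => ?_, fun y hy => ?_⟩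
  · rw [← hPe r hr, ← he, e.symm_apply_apply]
  · have hr1 : e r1 = P r1 := by rw [he, hPe r1 ⟨le_rfl, h12⟩]
    have hr2 : e r2 = P r2 := by rw [he, hPe r2 ⟨h12, le_rfl⟩]
    have hmem : e.symm y ∈ Icc r1 r2 := by
      constructor
      · rw [← e.le_iff_le, e.apply_symm_apply, hr1]; exact hy.1
      · rw [← e.le_iff_le, e.apply_symm_apply, hr2]; exact hy.2
    refine ⟨hmem, ?_⟩
    have hβe : β (e.symm y) = b (e.symm y) := by
      simp only [hβ]
      rw [min_eq_left hmem.2, max_eq_right hmem.1]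
    have := HasDerivAt.of_local_left_inverse (f := Pt) (g := e.symm) (a := y)
      e.symm.continuous.continuousAt (hPtd _) (by rw [hβe]; exact (hb0 _).ne')
      (Eventually.of_forall fun z => by rw [← he, e.apply_symm_apply])
    rwa [hβe] at this

theorem spd_continuous {F : ℝ → ℝ} (hF : Continuous F) {γ : ℝ → X} (hγ : ContDiff ℝ 1 γ) :
    Continuous (spd F γ) := by
  have h1 : ContDiff ℝ 1 (fun t => (γ t).1) := contDiff_fst.comp hγ
  have h2 : ContDiff ℝ 1 (fun t => (γ t).2) := contDiff_snd.comp hγ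
  have h3 := h1.continuous_deriv le_rfl
  have h4 := h2.continuous_deriv le_rfl
  have h5 := h1.continuous
  unfold spd
  exact Real.continuous_sqrt.comp ((h3.pow 2).add (((hF.comp h5).pow 2).mul (h4.pow 2)))

theorem spd_nonneg (F : ℝ → ℝ) (γ : ℝ → X) (t : ℝ) : 0 ≤ spd F γ t := Real.sqrt_nonneg _

theorem geod_pos {F : ℝ → ℝ} {K : ℝ} (hP : Prof F) (hB : FB F K) {c : ℝ → X} {a b : ℝ → ℝ}
    (hc : IsGeod F c a b) (hb0 : ∀ r, 0 < b r) {r1 r2 : ℝ} (h12 : r1 ≤ r2) {γ : ℝ → X}
    (hγ : IsPath γ (c r1) (c r2)) : r2 - r1 ≤ len F γ := by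
  obtain ⟨hS, hPd, ha, hb, hu⟩ := hc
  have hsc := spd_continuous hP.continuous hγ.c1
  rcases h12.eq_or_lt with rfl | h12'
  · rw [sub_self]
    exact intervalIntegral.integral_nonneg zero_le_one fun t _ => spd_nonneg _ _ _
  have hbc : Continuous b := continuous_iff_continuousAt.2 fun r => (hb r).continuousAt
  have hPmono : StrictMono fun r => (c r).2 := strictMono_of_deriv_pos fun x => by
    rw [(hPd x).deriv]; exact hb0 _
  have hs1 : ContDiff ℝ 1 (fun t => (γ t).1) := contDiff_fst.comp hγ.c1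
  have hs2 : ContDiff ℝ 1 (fun t => (γ t).2) := contDiff_snd.comp hγ.c1
  have hd1 : ∀ t, HasDerivAt (fun t => (γ t).1) (deriv (fun τ => (γ τ).1) t) t := fun t =>
    (hs1.differentiable one_ne_zero t).hasDerivAt
  have hd2 : ∀ t, HasDerivAt (fun t => (γ t).2) (deriv (fun τ => (γ τ).2) t) t := fun t =>
    (hs2.differentiable one_ne_zero t).hasDerivAt
  obtain ⟨ta, tb, hta, htab, htb, hφa, hφb, hφ⟩ := passage (φ := fun t => (γ t).2)
    hs2.continuous (hPmono h12') (by simp only [hγ.st]) (by simp only [hγ.en])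
  obtain ⟨Q, hQ1, hQ2⟩ := inverse hPd hbc hb0 h12
  have hone : ∀ r, |a r| ≤ 1 := by
    intro r
    have := hu r
    rw [← sq_le_one_iff_abs_le_one]
    nlinarith [sq_nonneg (F (c r).1 * b r)]
  -- derivative along pieces with fixed coefficient
  have hline : ∀ (r u v : ℝ), u ≤ v → a r * (γ v).1 - a r * (γ u).1 ≤ ∫ t in u..v, spd F γ t := by
    intro r u v huv
    refine intervalIntegral.sub_le_integral_of_hasDeriv_right_of_le huv
      (hs1.continuous.const_mul (a r)).continuousOn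
      (fun t _ => ((hd1 t).const_mul (a r)).hasDerivWithinAt) hsc.continuousOn.integrableOn_Icc
      (fun t _ => ?_)
    unfold spd
    refine (le_abs_self _).trans (Real.abs_le_sqrt ?_)
    have h1 := hone r
    rw [← sq_le_one_iff_abs_le_one] at h1
    nlinarith [sq_nonneg (deriv (fun τ => (γ τ).1) t), sq_nonneg (F (γ t).1 *
      deriv (fun τ => (γ τ).2) t)]
  have hmid : (a (Q (γ tb).2) * ((γ tb).1 - (c (Q (γ tb).2)).1) + Q (γ tb).2) -
      (a (Q (γ ta).2) * ((γ ta).1 - (c (Q (γ ta).2)).1) + Q (γ ta).2) ≤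
      ∫ t in ta..tb, spd F γ t := by
    have hder : ∀ t ∈ Icc ta tb, HasDerivAt
        (fun t => a (Q (γ t).2) * ((γ t).1 - (c (Q (γ t).2)).1) + Q (γ t).2)
        (a (Q (γ t).2) * deriv (fun τ => (γ τ).1) t + deriv (fun τ => (γ τ).2) t *
          (F (c (Q (γ t).2)).1 * b (Q (γ t).2)) * (F (c (Q (γ t).2)).1 +
            deriv F (c (Q (γ t).2)).1 * ((γ t).1 - (c (Q (γ t).2)).1))) t := by
      intro t ht
      obtain ⟨_, hQd⟩ := hQ2 _ (hφ t ht)
      have hR : HasDerivAt (fun t => Q (γ t).2) ((b (Q (γ t).2))⁻¹ *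
          deriv (fun τ => (γ τ).2) t) t := HasDerivAt.comp t hQd (hd2 t)
      have haR := HasDerivAt.comp t (ha (Q (γ t).2)) hR
      have hSR := HasDerivAt.comp t (hS (Q (γ t).2)) hR
      have h := (haR.mul ((hd1 t).sub hSR)).add hR
      refine h.congr_deriv ?_
      have hbne := (hb0 (Q (γ t).2)).ne'
      have hu' := hu (Q (γ t).2)
      simp only [Function.comp_apply, Pi.sub_apply]
      generalize a (Q (γ t).2) = a0 at *
      generalize b (Q (γ t).2) = b0 at *
      generalize F (c (Q (γ t).2)).1 = F0 at *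
      generalize deriv F (c (Q (γ t).2)).1 = F1 at *
      generalize (γ t).1 - (c (Q (γ t).2)).1 = z at *
      generalize deriv (fun τ => (γ τ).1) t = s' at *
      generalize deriv (fun τ => (γ τ).2) t = p' at *
      field_simp
      linear_combination (-p') * hu'
    refine intervalIntegral.sub_le_integral_of_hasDeriv_right_of_le htab
      (fun t ht => (hder t ht).continuousAt.continuousWithinAt)
      (fun t ht => (hder t (Ioo_subset_Icc_self ht)).hasDerivWithinAt)
      hsc.continuousOn.integrableOn_Icc (fun t ht => ?_)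
    unfold spd
    refine (le_abs_self _).trans (Real.abs_le_sqrt ?_)
    have hu' := hu (Q (γ t).2)
    have htan := hB.tan (c (Q (γ t).2)).1 (γ t).1
    generalize a (Q (γ t).2) = a0 at *
    generalize b (Q (γ t).2) = b0 at *
    generalize F (c (Q (γ t).2)).1 + deriv F (c (Q (γ t).2)).1 * ((γ t).1 -
      (c (Q (γ t).2)).1) = k at *
    generalize F (c (Q (γ t).2)).1 = F0 at *
    generalize deriv (fun τ => (γ τ).1) t = s' at *
    generalize deriv (fun τ => (γ τ).2) t = p' at *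
    have hk : k ^ 2 ≤ F (γ t).1 ^ 2 := by
      rw [← sq_abs k]
      have := abs_nonneg k
      nlinarith
    calc (a0 * s' + p' * (F0 * b0) * k) ^ 2 ≤ (a0 ^ 2 + F0 ^ 2 * b0 ^ 2) * (s' ^ 2 + k ^ 2 * p' ^ 2) := by
          nlinarith [sq_nonneg (a0 * (k * p') - F0 * b0 * s')]
      _ = s' ^ 2 + k ^ 2 * p' ^ 2 := by rw [hu', one_mul]
      _ ≤ s' ^ 2 + F (γ t).1 ^ 2 * p' ^ 2 := by
          have := sq_nonneg p'
          nlinarith
  have e1 : Q (γ ta).2 = r1 := by
    have : (γ ta).2 = (c r1).2 := hφa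
    rw [this, hQ1 r1 ⟨le_rfl, h12⟩]
  have e2 : Q (γ tb).2 = r2 := by
    have : (γ tb).2 = (c r2).2 := hφb
    rw [this, hQ1 r2 ⟨h12, le_rfl⟩]
  rw [e1, e2] at hmid
  have hl1 := hline r1 0 ta hta
  have hl2 := hline r2 tb 1 htb
  rw [hγ.st] at hl1
  rw [hγ.en] at hl2
  have hsum : len F γ = (∫ t in (0 : ℝ)..ta, spd F γ t) + (∫ t in ta..tb, spd F γ t) +
      (∫ t in tb..1, spd F γ t) := by
    unfold len
    rw [intervalIntegral.integral_add_adjacent_intervals (hsc.intervalIntegrable _ _)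
      (hsc.intervalIntegrable _ _), intervalIntegral.integral_add_adjacent_intervals
      (hsc.intervalIntegrable _ _) (hsc.intervalIntegrable _ _)]
  rw [hsum]
  nlinarith

theorem path_exists (p q : X) : ∃ γ, IsPath γ p q :=
  ⟨fun t => p + t • (q - p), by fun_prop, by simp, by simp⟩

theorem dd_ge_pos {F : ℝ → ℝ} {K : ℝ} (hP : Prof F) (hB : FB F K) {c : ℝ → X} {a b : ℝ → ℝ}
    (hc : IsGeod F c a b) (hb0 : ∀ r, 0 < b r) {r1 r2 : ℝ} (h12 : r1 ≤ r2) :
    r2 - r1 ≤ dd F (c r1) (c r2) := by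
  obtain ⟨γ, hγ⟩ := path_exists (c r1) (c r2)
  refine le_csInf ⟨_, γ, hγ, rfl⟩ ?_
  rintro L ⟨γ, hγ, rfl⟩
  exact geod_pos hP hB hc hb0 h12 hγ

theorem mini (h1 : T_FB) (h2 : T_DD) : T_MINI := by
  intro F hP c a b hc r1 r2 h12
  obtain ⟨K, hB⟩ := h1 F hP
  have hD := h2 F hP
  have hc' := hc
  obtain ⟨hS, hPd, ha, hb, hu⟩ := hc'
  have hac : Continuous a := continuous_iff_continuousAt.2 fun r => (ha r).continuousAt
  have hbc : Continuous b := continuous_iff_continuousAt.2 fun r => (hb r).continuousAt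
  have hF1 : ∀ s, HasDerivAt F (deriv F s) s := fun s =>
    (hP.smooth.differentiable (by simp) s).hasDerivAt
  apply le_antisymm
  · have hc1 : ContDiff ℝ 1 c := by
      have e1 : ContDiff ℝ 1 fun r => (c r).1 := by
        rw [contDiff_one_iff_deriv]
        refine ⟨fun r => (hS r).differentiableAt, ?_⟩
        have : deriv (fun r => (c r).1) = a := funext fun r => (hS r).deriv
        rw [this]; exact hac
      have e2 : ContDiff ℝ 1 fun r => (c r).2 := by
        rw [contDiff_one_iff_deriv]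
        refine ⟨fun r => (hPd r).differentiableAt, ?_⟩
        have : deriv (fun r => (c r).2) = b := funext fun r => (hPd r).deriv
        rw [this]; exact hbc
      exact e1.prodMk e2
    refine (hD.len c r1 r2 h12 hc1).trans (le_of_eq ?_)
    have : ∀ t, spd F c t = 1 := by
      intro t
      unfold spd
      rw [(hS t).deriv, (hPd t).deriv, hu t, Real.sqrt_one]
    simp [this]
  -- Clairaut
  have hcl : ∀ r, HasDerivAt (fun r => F (c r).1 ^ 2 * b r) 0 r := by
    intro r
    have hFc := HasDerivAt.comp r (hF1 (c r).1) (hS r)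
    have h := (hFc.pow 2).mul (hb r)
    refine h.congr_deriv ?_
    have := (hP.pos (c r).1).ne'
    rw [Pi.pow_apply, Function.comp_apply]
    field_simp
    push_cast
    ring
  have hconst : ∀ r r', F (c r).1 ^ 2 * b r = F (c r').1 ^ 2 * b r' :=
    is_const_of_deriv_eq_zero (fun r => (hcl r).differentiableAt) fun r => (hcl r).deriv
  rcases lt_trichotomy (b 0) 0 with h0 | h0 | h0
  · -- reflect
    have hbneg : ∀ r, b r < 0 := by
      intro r
      have h3 := hconst r 0
      have h4 : F (c 0).1 ^ 2 * b 0 < 0 := mul_neg_of_pos_of_neg (pow_pos (hP.pos _) 2) h0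
      rw [← h3] at h4
      exact (pos_iff_neg_of_mul_neg h4).1 (pow_pos (hP.pos _) 2)
    have hg : IsGeod F (fun r => ((c r).1, -(c r).2)) a (fun r => -b r) := by
      refine ⟨hS, fun r => (hPd r).neg, fun r => ?_, fun r => ?_, fun r => ?_⟩
      · simpa using ha r
      · refine (hb r).neg.congr_deriv ?_
        ring
      · simpa using hu r
    have h3 := dd_ge_pos hP hB hg (fun r => by linarith [hbneg r]) h12
    have h5 : dd F ((c r1).1, -(c r1).2) ((c r2).1, -(c r2).2) = dd F (c r1) (c r2) :=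
      hD.refl (c r1) (c r2)
    rw [← h5]
    exact h3
  · have hbz : ∀ r, b r = 0 := by
      intro r
      have h3 := hconst r 0
      rw [h0, mul_zero] at h3
      rcases mul_eq_zero.1 h3 with h4 | h4
      · exact absurd h4 (pow_pos (hP.pos _) 2).ne'
      · exact h4
    have had : ∀ r, HasDerivAt a 0 r := by
      intro r
      have := ha r
      rwa [hbz r, zero_pow two_ne_zero, mul_zero] at this
    have hac' : ∀ r r', a r = a r' :=
      is_const_of_deriv_eq_zero (fun r => (had r).differentiableAt) fun r => (had r).deriv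
    have hSl : ∀ r r', (c r).1 - a 0 * r = (c r').1 - a 0 * r' := by
      have hd : ∀ r, HasDerivAt (fun r => (c r).1 - a 0 * r) 0 r := by
        intro r
        have := (hS r).sub ((hasDerivAt_id r).const_mul (a 0))
        refine this.congr_deriv ?_
        rw [mul_one, hac' r 0, sub_self]
      exact is_const_of_deriv_eq_zero (fun r => (hd r).differentiableAt) fun r => (hd r).deriv
    have h3 := hD.ge1 (c r1) (c r2)
    have h4 : (c r1).1 - (c r2).1 = a 0 * (r1 - r2) := by
      have := hSl r1 r2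
      linarith
    have h5 : |a 0| = 1 := by
      have := hu 0
      rw [hbz 0, zero_pow two_ne_zero, mul_zero, add_zero] at this
      rw [← sq_abs] at this
      exact (pow_eq_one_iff_of_nonneg (abs_nonneg _) two_ne_zero).1 this
    rw [h4, abs_mul, h5, one_mul, abs_sub_comm, abs_of_nonneg (by linarith)] at h3
    exact h3
  · have hbpos : ∀ r, 0 < b r := by
      intro r
      have h3 := hconst r 0
      have h4 : 0 < F (c 0).1 ^ 2 * b 0 := mul_pos (pow_pos (hP.pos _) 2) h0
      rw [← h3] at h4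
      exact (pos_iff_pos_of_mul_pos h4).1 (pow_pos (hP.pos _) 2)
    exact dd_ge_pos hP hB hc hbpos h12

end Pool.Agent.H97.HK
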